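import Pool.Agent.Q263.ZO.Graded

/-!
# The weight and depth of a motivic multiple zeta value, and the Broadhurst-Kreimer series
-/

set_option autoImplicit false

open Module Filter

namespace Pool.Agent.Q127.BK

open Pool.Agent.Q263.ZO Pool.Agent.H447R2.MZ

/-! ### Linear algebra -/

/-- the dimension of a quotient -/
theorem finrank_add {V : Type*} [AddCommGroup V] [Module ℚ V] {A B : Submodule ℚ V} (h : A ≤ B)
    [FiniteDimensional ℚ B] : finrank ℚ B = finrank ℚ A + finrank ℚ (B.map A.mkQ) := by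
  have h1 := (A.mkQ.domRestrict B).finrank_range_add_finrank_ker
  rw [LinearMap.range_domRestrict] at h1
  have e2 : LinearMap.ker (A.mkQ.domRestrict B) = A.comap B.subtype := by
    ext x
    rw [LinearMap.mem_ker, Submodule.mem_comap]
    exact Submodule.Quotient.mk_eq_zero A
  rw [e2, (Submodule.comapSubtypeEquivOfLe h).finrank_eq] at h1
  omega

/-! ### The depth filtration -/

/-- the span of the multiple zeta values of weight `n` and depth at most `r` -/
noncomputable def Fil (r n : ℕ) : Submodule ℚ ℝ :=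
  Submodule.span ℚ
    {x : ℝ | ∃ t ≤ r, ∃ k : Fin t → ℕ,
      (∀ i, 1 ≤ k i) ∧ (∀ h : 0 < t, 2 ≤ k ⟨0, h⟩) ∧ (∑ i, k i) = n ∧
      x = ∑' m : {m : Fin t → ℕ // StrictAnti m ∧ ∀ i, 1 ≤ m i},
            ∏ i, (((m.1 i : ℕ) : ℝ) ^ (k i))⁻¹}

theorem Fil_mono {r s : ℕ} (h : r ≤ s) (n : ℕ) : Fil r n ≤ Fil s n := by
  refine Submodule.span_mono ?_
  rintro x ⟨t, ht, hx⟩
  exact ⟨t, ht.trans h, hx⟩

theorem Fil_top {r n : ℕ} (h : n ≤ r) : Fil r n = Zs n := by
  apply le_antisymm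
  · refine Submodule.span_mono ?_
    rintro x ⟨t, _, hx⟩
    exact ⟨t, hx⟩
  · refine Submodule.span_mono ?_
    rintro x ⟨t, k, h1, h2, h3, h4⟩
    refine ⟨t, ?_, k, h1, h2, h3, h4⟩
    have : ∑ _i : Fin t, 1 ≤ ∑ i, k i := Finset.sum_le_sum fun i _ => h1 i
    simp only [Finset.sum_const, Finset.card_univ, Fintype.card_fin, smul_eq_mul, mul_one] at this
    omega

theorem exists_pos {n : ℕ} (hn : 2 ≤ n) : ∃ x ∈ Fil 1 n, x ≠ 0 := by
  have hadm : Adm (List.ofFn (fun _ : Fin 1 => n)) := by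
    rw [show List.ofFn (fun _ : Fin 1 => n) = [n] by simp]
    refine ⟨fun a ha => ?_, fun a t hat => ?_⟩
    · rw [List.mem_singleton] at ha
      omega
    · have := (List.cons.inj hat).1
      omega
  have h1 := (hasSum_val 1 (fun _ => n) hadm).tsum_eq
  have h0 : 1 ≤ n := by omega
  refine ⟨_, Submodule.subset_span ⟨1, le_rfl, fun _ => n, fun _ => h0, fun _ => hn, by simp, rfl⟩, ?_⟩
  rw [h1, show List.ofFn (fun _ : Fin 1 => n) = [n] by simp, ← (val_single n hn).tsum_eq]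
  exact (zeta_pos n hn).ne'

/-- the dimension of `gr_r` for a filtration -/
noncomputable def grd {V : Type*} [AddCommGroup V] [Module ℚ V] (F : ℕ → ℕ → Submodule ℚ V) (k r : ℕ) : ℕ :=
  finrank ℚ ((F r k).map (match r with | 0 => (⊥ : Submodule ℚ V) | r + 1 => F r k).mkQ)

theorem grd_sum {V : Type*} [AddCommGroup V] [Module ℚ V] (F : ℕ → ℕ → Submodule ℚ V)
    (hF : ∀ r k, F r k ≤ F (r + 1) k) (hfin : ∀ r k, FiniteDimensional ℚ (F r k)) (k R : ℕ) :
    ∑ r ∈ Finset.range (R + 1), grd F k r = finrank ℚ (F R k) := by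
  induction R with
  | zero =>
    have := hfin 0 k
    rw [Finset.sum_range_one]
    have h1 := finrank_add (A := (⊥ : Submodule ℚ V)) (B := F 0 k) bot_le
    rw [finrank_bot, zero_add] at h1
    exact h1.symm
  | succ R ih =>
    have := hfin (R + 1) k
    rw [Finset.sum_range_succ, ih]
    exact (finrank_add (hF R k)).symm

/-! ### Motivic multiple zeta values -/

/-- the known facts about the algebra of motivic multiple zeta values, with weight and depth -/
structure Motivic' where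
  H : Type
  [ring : CommRing H]
  [dom : IsDomain H]
  [alg : Algebra ℚ H]
  /-- weight `n` and depth at most `r` -/
  F : ℕ → ℕ → Submodule ℚ H
  fin : ∀ r n, FiniteDimensional ℚ (F r n)
  mono : ∀ r n, F r n ≤ F (r + 1) n
  top : ∀ r n, n ≤ r → F r n = F n n
  rank : ∀ n, finrank ℚ (F n n) = d n
  mul : ∀ r s m n x y, x ∈ F r m → y ∈ F s n → x * y ∈ F (r + s) (m + n)
  per : H →ₐ[ℚ] ℝ
  map : ∀ r n, (F r n).map per.toLinearMap = Fil r n

attribute [instance] Motivic'.ring Motivic'.dom Motivic'.alg Motivic'.fin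

theorem Motivic'.mono' (M : Motivic') {r s : ℕ} (h : r ≤ s) (n : ℕ) : M.F r n ≤ M.F s n := by
  induction s, h using Nat.le_induction with
  | base => exact le_rfl
  | succ s _ ih => exact ih.trans (M.mono s n)

theorem Motivic'.le (M : Motivic') (r n : ℕ) : finrank ℚ (Fil r n) ≤ finrank ℚ (M.F r n) := by
  rw [← M.map r n]
  exact map_le _ _

theorem Motivic'.finite (M : Motivic') (r n : ℕ) : FiniteDimensional ℚ (Fil r n) := by
  rw [← M.map r n]
  infer_instance

/-- real and motivic dimensions agree -/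
def Motivic'.Eq (M : Motivic') (r k : ℕ) : Prop := finrank ℚ (Fil r k) = finrank ℚ (M.F r k)

theorem Motivic'.step (M : Motivic') {r k : ℕ} (h : ¬ M.Eq r k) (s n : ℕ) :
    finrank ℚ (Fil (r + s) (k + n)) + finrank ℚ (M.F s n) ≤ finrank ℚ (M.F (r + s) (k + n)) := by
  have h1 : finrank ℚ ((M.F r k).map M.per.toLinearMap) < finrank ℚ (M.F r k) := by
    rw [M.map]
    exact lt_of_le_of_ne (M.le r k) h
  obtain ⟨x, hx, hx0, hp⟩ := exists_ker _ _ h1
  have h2 := drop M.per.toLinearMap (M.F s n) (M.F (r + s) (k + n)) x hx0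
    (fun y hy => M.mul r s k n x y hx hy)
    (fun y _ => by
      have h3 : M.per x = 0 := hp
      have h4 : M.per (x * y) = 0 := by rw [map_mul, h3, zero_mul]
      exact h4)
  rwa [M.map] at h2

theorem Motivic'.pos (M : Motivic') {r n : ℕ} (hr : 1 ≤ r) (hn : 2 ≤ n) : 1 ≤ finrank ℚ (M.F r n) := by
  obtain ⟨x, hx, hx0⟩ := exists_pos hn
  rw [← M.map] at hx
  obtain ⟨y, hy, rfl⟩ := hx
  have hy0 : y ≠ 0 := by
    rintro rfl
    exact hx0 (map_zero _)
  have hy' : y ∈ M.F r n := M.mono' hr n hy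
  rw [Nat.one_le_iff_ne_zero]
  intro h
  have h1 : M.F r n = ⊥ := Submodule.finrank_eq_zero.1 h
  rw [h1, Submodule.mem_bot] at hy'
  exact hy0 hy'

theorem Motivic'.spoil (M : Motivic') {r k : ℕ} (h : ¬ M.Eq r k) {s n : ℕ} (hs : r < s) (hn : k + 2 ≤ n) :
    ¬ M.Eq s n := by
  have h1 := M.step h (s - r) (n - k)
  have h2 := M.pos (r := s - r) (n := n - k) (by omega) (by omega)
  rw [show r + (s - r) = s by omega, show k + (n - k) = n by omega] at h1
  unfold Motivic'.Eq
  omega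

/-- equality for infinitely many weights in depth `≤ r` gives equality in depth `< r` -/
theorem Motivic'.depth (M : Motivic') (r : ℕ) (h : ∃ᶠ k in atTop, M.Eq r k) : ∀ s < r, ∀ n, M.Eq s n := by
  intro s hs n
  by_contra hne
  obtain ⟨k, hk, h1⟩ := (frequently_atTop.1 h) (n + 2)
  exact M.spoil hne hs hk h1

theorem Motivic'.all (M : Motivic') (h : ∀ a, ∃ r, a ≤ r ∧ ∃ k, a ≤ k ∧ M.Eq r k) : ∀ r k, M.Eq r k := by
  intro r k
  by_contra hne
  obtain ⟨s, hs, n, hn, h1⟩ := h (r + k + 2)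
  exact M.spoil hne (by omega) (by omega) h1

/-- equality in all depths follows from equality in full depth -/
theorem Motivic'.of_top (M : Motivic') (h : ∀ k, finrank ℚ (Zs k) = d k) : ∀ r k, M.Eq r k := by
  apply M.all
  intro a
  refine ⟨a, le_rfl, a, le_rfl, ?_⟩
  unfold Motivic'.Eq
  rw [Fil_top le_rfl, M.rank, h]

theorem Motivic'.of_frequently (M : Motivic') (h : ∃ᶠ k in atTop, finrank ℚ (Zs k) = d k) :
    ∀ r k, M.Eq r k := by
  apply M.all
  intro a
  obtain ⟨k, hk, h1⟩ := (frequently_atTop.1 h) a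
  refine ⟨k, hk, k, hk, ?_⟩
  unfold Motivic'.Eq
  rw [Fil_top le_rfl, M.rank, h1]

theorem Motivic'.top_of (M : Motivic') (h : ∀ r k, M.Eq r k) (k : ℕ) : finrank ℚ (Zs k) = d k := by
  have := h k k
  unfold Motivic'.Eq at this
  rwa [Fil_top le_rfl, M.rank] at this

/-! ### The series of Broadhurst and Kreimer -/

open PowerSeries

/-- `X² / (1 - X²)` -/
noncomputable def sE : ℚ⟦X⟧ := X ^ 2 * (1 - X ^ 2)⁻¹

/-- `X³ / (1 - X²)` -/
noncomputable def sO : ℚ⟦X⟧ := X ^ 3 * (1 - X ^ 2)⁻¹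

/-- `X¹² / ((1 - X⁴)(1 - X⁶))` -/
noncomputable def sS : ℚ⟦X⟧ := X ^ 12 * ((1 - X ^ 4) * (1 - X ^ 6))⁻¹

/-- the conjecture of Broadhurst and Kreimer for numbers `g k r`: the coefficient of `X^k Y^r` of
`(1 + E(X) Y) / (1 - O(X) Y + S(X) Y² - S(X) Y⁴)` is `g k r`; the outer variable is `Y`. -/
def IsBK (g : ℕ → ℕ → ℕ) : Prop :=
  (PowerSeries.mk fun r => PowerSeries.mk fun k => (g k r : ℚ) : (ℚ⟦X⟧)⟦X⟧) *
    (1 - C sO * X + C sS * X ^ 2 - C sS * X ^ 4) = 1 + C sE * X

theorem inv_mul : (1 - X ^ 2 : ℚ⟦X⟧)⁻¹ * (1 - X ^ 2) = 1 :=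
  PowerSeries.inv_mul_cancel _ (by simp)

theorem BK_rec {g : ℕ → ℕ → ℕ} (h : IsBK g) (r : ℕ) :
    (PowerSeries.mk fun k => (g k r : ℚ)) -
      sO * (if 1 ≤ r then PowerSeries.mk fun k => (g k (r - 1) : ℚ) else 0) +
      sS * (if 2 ≤ r then PowerSeries.mk fun k => (g k (r - 2) : ℚ) else 0) -
      sS * (if 4 ≤ r then PowerSeries.mk fun k => (g k (r - 4) : ℚ) else 0) =
    coeff r (1 + C sE * X : (ℚ⟦X⟧)⟦X⟧) := by
  rw [IsBK] at h
  rw [← h]
  set G : (ℚ⟦X⟧)⟦X⟧ := PowerSeries.mk fun r => PowerSeries.mk fun k => (g k r : ℚ) with hG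
  have e : G * (1 - C sO * X + C sS * X ^ 2 - C sS * X ^ 4) =
      G - C sO * (G * X ^ 1) + C sS * (G * X ^ 2) - C sS * (G * X ^ 4) := by ring
  rw [e]
  simp only [map_sub, map_add, coeff_C_mul, coeff_mul_X_pow', hG, coeff_mk]

/-- the partial sums over `Y`, at `Y = 1` -/
theorem BK_partial {g : ℕ → ℕ → ℕ} (h : IsBK g) (R : ℕ) :
    (∑ r ∈ Finset.range (R + 4), PowerSeries.mk fun k => (g k r : ℚ)) -
      sO * (∑ r ∈ Finset.range (R + 3), PowerSeries.mk fun k => (g k r : ℚ)) +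
      sS * (∑ r ∈ Finset.range (R + 2), PowerSeries.mk fun k => (g k r : ℚ)) -
      sS * (∑ r ∈ Finset.range R, PowerSeries.mk fun k => (g k r : ℚ)) = 1 + sE := by
  set G : ℕ → ℚ⟦X⟧ := fun r => PowerSeries.mk fun k => (g k r : ℚ) with hG
  set P : ℕ → ℚ⟦X⟧ := fun n => ∑ r ∈ Finset.range n, G r with hP
  change P (R + 4) - sO * P (R + 3) + sS * P (R + 2) - sS * P R = 1 + sE
  have hS : ∀ n, P (n + 1) = P n + G n := fun n => Finset.sum_range_succ _ _
  have hz : P 0 = 0 := Finset.sum_range_zero _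
  induction R with
  | zero =>
    have h0 := BK_rec h 0
    have h1 := BK_rec h 1
    have h2 := BK_rec h 2
    have h3 := BK_rec h 3
    simp only [map_add, coeff_one, coeff_C_mul, coeff_X] at h0 h1 h2 h3
    norm_num at h0 h1 h2 h3
    have s0 := hS 0
    have s1 := hS 1
    have s2 := hS 2
    have s3 := hS 3
    norm_num at s0 s1 s2 s3
    simp only [hG] at s0 s1 s2 s3
    rw [show 0 + 4 = 4 by norm_num, show 0 + 3 = 3 by norm_num, show 0 + 2 = 2 by norm_num, s3, s2, s1, s0, hz]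
    linear_combination h0 + h1 + h2 + h3
  | succ R ih =>
    have h4 := BK_rec h (R + 4)
    simp only [map_add, coeff_one, coeff_C_mul, coeff_X] at h4
    norm_num at h4
    have s4 := hS (R + 4)
    have s3 := hS (R + 3)
    have s2 := hS (R + 2)
    have s0 := hS R
    rw [show R + 4 - 2 = R + 2 by omega, if_neg (show ¬ (R + 4 = 1) by omega)] at h4
    simp only [hG] at s4 s3 s2 s0
    rw [show R + 1 + 4 = R + 4 + 1 by ring, show R + 1 + 3 = R + 3 + 1 by ring, show R + 1 + 2 = R + 2 + 1 by ring,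
      s4, s2, s0]
    linear_combination ih + h4 - sO * s3

theorem coeff_mul_congr (A B S : ℚ⟦X⟧) (k : ℕ) (h : ∀ i ≤ k, coeff i A = coeff i B) :
    coeff k (S * A) = coeff k (S * B) := by
  rw [coeff_mul, coeff_mul]
  refine Finset.sum_congr rfl fun p hp => ?_
  rw [h p.2 (by
    have := Finset.HasAntidiagonal.mem_antidiagonal.1 hp
    omega)]

/-- at `Y = 1` the series of Broadhurst and Kreimer is `1 / (1 - X² - X³)` -/
theorem sum_eq_d {g : ℕ → ℕ → ℕ} (h : IsBK g) (z : ℕ → ℕ)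
    (hz : ∀ k R, k ≤ R → ∑ r ∈ Finset.range (R + 1), g k r = z k) : z = d := by
  set Z : ℚ⟦X⟧ := PowerSeries.mk fun k => (z k : ℚ) with hZ
  have hP : ∀ k R, k + 1 ≤ R →
      coeff k (∑ r ∈ Finset.range R, PowerSeries.mk fun k => (g k r : ℚ)) = coeff k Z := by
    intro k R hR
    obtain ⟨R', rfl⟩ : ∃ R', R = R' + 1 := ⟨R - 1, by omega⟩
    rw [map_sum, hZ, coeff_mk]
    simp only [coeff_mk]
    rw [← hz k R' (by omega)]
    push_cast
    rfl
  have h1 : Z - sO * Z = 1 + sE := by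
    ext k
    rw [← BK_partial h (k + 1), map_sub, map_sub, map_add, map_sub]
    rw [coeff_mul_congr (∑ r ∈ Finset.range (k + 1 + 3), PowerSeries.mk fun k => (g k r : ℚ)) Z sO k
        (fun i hi => hP i _ (by omega)),
      coeff_mul_congr (∑ r ∈ Finset.range (k + 1 + 2), PowerSeries.mk fun k => (g k r : ℚ)) Z sS k
        (fun i hi => hP i _ (by omega)),
      coeff_mul_congr (∑ r ∈ Finset.range (k + 1), PowerSeries.mk fun k => (g k r : ℚ)) Z sS k
        (fun i hi => hP i _ (by omega)), hP k (k + 1 + 4) (by omega)]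
    ring
  have h2 : Z = 1 + Z * X ^ 2 + Z * X ^ 3 := by
    have e1 : sO * (1 - X ^ 2) = X ^ 3 := by
      rw [sO, mul_assoc, inv_mul, mul_one]
    have e2 : sE * (1 - X ^ 2) = X ^ 2 := by
      rw [sE, mul_assoc, inv_mul, mul_one]
    linear_combination (1 - X ^ 2) * h1 + Z * e1 + e2
  have hc : ∀ n, (z n : ℚ) = (if n = 0 then 1 else 0) + (if 2 ≤ n then (z (n - 2) : ℚ) else 0) +
      (if 3 ≤ n then (z (n - 3) : ℚ) else 0) := by
    intro n
    have h3 := congrArg (coeff n) h2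
    simp only [map_add, coeff_one, coeff_mul_X_pow', hZ, coeff_mk] at h3
    exact h3
  apply d_unique
  · have := hc 0
    norm_num at this
    exact_mod_cast this
  · have := hc 1
    norm_num at this
    exact_mod_cast this
  · have h0 := hc 0
    have := hc 2
    norm_num at this h0
    rw [h0] at this
    exact_mod_cast this
  · intro n hn
    have := hc n
    rw [if_neg (by omega), if_pos (by omega), if_pos hn, zero_add] at this
    exact_mod_cast this

/-! ### The conjecture -/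

/-- the dimensions of `gr_r Z_k` -/
noncomputable def realDim (k r : ℕ) : ℕ := grd Fil k r

/-- the dimensions of the motivic analogues -/
noncomputable def Motivic'.motDim (M : Motivic') (k r : ℕ) : ℕ := grd M.F k r

theorem Motivic'.dims (M : Motivic') (h : IsBK realDim) (k : ℕ) : finrank ℚ (Zs k) = d k := by
  have h1 := sum_eq_d h (fun k => finrank ℚ (Zs k)) (fun k R hR => by
    have h2 := grd_sum Fil (fun r k => Fil_mono (Nat.le_succ r) k) (fun r k => M.finite r k) k R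
    rw [Fil_top hR] at h2
    exact h2)
  exact congrFun h1 k

theorem grd_eq_of {V W : Type*} [AddCommGroup V] [Module ℚ V] [AddCommGroup W] [Module ℚ W]
    {F : ℕ → ℕ → Submodule ℚ V} {G : ℕ → ℕ → Submodule ℚ W}
    (hF : ∀ r k, F r k ≤ F (r + 1) k) (hfin : ∀ r k, FiniteDimensional ℚ (F r k))
    (hG : ∀ r k, G r k ≤ G (r + 1) k) (gfin : ∀ r k, FiniteDimensional ℚ (G r k))
    (h : ∀ r k, finrank ℚ (F r k) = finrank ℚ (G r k)) : grd F = grd G := by
  funext k r
  cases r with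
  | zero =>
    have h1 := grd_sum F hF hfin k 0
    have h2 := grd_sum G hG gfin k 0
    rw [Finset.sum_range_one] at h1 h2
    rw [h1, h2, h]
  | succ r =>
    have h1 := grd_sum F hF hfin k (r + 1)
    have h2 := grd_sum G hG gfin k (r + 1)
    rw [Finset.sum_range_succ, grd_sum F hF hfin] at h1
    rw [Finset.sum_range_succ, grd_sum G hG gfin] at h2
    have h3 := h r k
    have h4 := h (r + 1) k
    omega

theorem Motivic'.dim_eq (M : Motivic') (h : ∀ r k, M.Eq r k) : realDim = M.motDim :=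
  grd_eq_of (fun r k => Fil_mono (Nat.le_succ r) k) (fun r k => M.finite r k) M.mono M.fin h

theorem Motivic'.iff_all (M : Motivic') : IsBK realDim ↔ IsBK M.motDim ∧
    ∀ a, ∃ r, a ≤ r ∧ ∃ k, a ≤ k ∧ M.Eq r k := by
  constructor
  · intro h
    have h1 := M.of_top (M.dims h)
    exact ⟨by rw [← M.dim_eq h1]; exact h, fun a => ⟨a, le_rfl, a, le_rfl, h1 a a⟩⟩
  · rintro ⟨h1, h2⟩
    rw [M.dim_eq (M.all h2)]
    exact h1

theorem Motivic'.iff_dims (M : Motivic') : IsBK realDim ↔ IsBK M.motDim ∧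
    ∃ᶠ k in atTop, finrank ℚ (Zs k) = d k := by
  constructor
  · intro h
    exact ⟨(M.iff_all.1 h).1, Frequently.of_forall (M.dims h)⟩
  · rintro ⟨h1, h2⟩
    rw [M.dim_eq (M.of_frequently h2)]
    exact h1

theorem Motivic'.fails (M : Motivic') (h1 : IsBK M.motDim) (h2 : ¬ IsBK realDim) :
    ∃ r₀ k₀, ¬ M.Eq r₀ k₀ ∧ ∀ r k, r₀ < r → k₀ + 2 ≤ k → ¬ M.Eq r k := by
  by_contra hc
  push Not at hc
  apply h2
  rw [M.dim_eq]
  · exact h1
  · intro r k
    by_contra hne
    obtain ⟨r', k', hr, hk, h3⟩ := hc r k hne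
    exact M.spoil hne hr hk h3

end Pool.Agent.Q127.BK
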