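import Pool.Agent.Q127.HB.Main

/-!
# Zero-one laws for Hoffman's basis conjecture, second part
-/

set_option autoImplicit false

open Module Filter

namespace Pool.Agent.Q127.HB

open Pool.Agent.Q263.ZO Pool.Agent.H447R2.MZ Pool.Agent.Y123.MZ

/-- the words of weight `n` are independent modulo `L` -/
def IndepMod (n : ℕ) (L : Submodule ℚ ℝ) : Prop :=
  LinearIndepOn ℚ (fun w => L.mkQ (zeta w)) {w | wt w = n}

theorem IndepOn.mono {A B : Set ℕ} (h : IndepOn B) (hAB : A ⊆ B) : IndepOn A :=
  LinearIndepOn.mono h (fun _ hw => hAB hw)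

theorem indepOn_iff (A : Set ℕ) : IndepOn A ↔ ∀ c : Word →₀ ℚ, (∀ w ∈ c.support, wt w ∈ A) →
    Finsupp.linearCombination ℚ zeta c = 0 → c = 0 := by
  rw [IndepOn, linearIndepOn_iff]
  constructor
  · intro h c hc
    exact h c (fun w hw => hc w hw)
  · intro h c hc
    exact h c (fun w hw => hc hw)

theorem indepMod_iff (n : ℕ) (L : Submodule ℚ ℝ) : IndepMod n L ↔ ∀ c : Word →₀ ℚ,
    (∀ w ∈ c.support, wt w = n) → Finsupp.linearCombination ℚ zeta c ∈ L → c = 0 := by
  rw [IndepMod, linearIndepOn_iff]
  have key : ∀ c : Word →₀ ℚ, Finsupp.linearCombination ℚ (fun w => L.mkQ (zeta w)) c = 0 ↔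
      Finsupp.linearCombination ℚ zeta c ∈ L := by
    intro c
    have e : Finsupp.linearCombination ℚ (fun w => L.mkQ (zeta w)) c =
        L.mkQ (Finsupp.linearCombination ℚ zeta c) := by
      rw [Finsupp.linearCombination_apply, Finsupp.linearCombination_apply, Finsupp.sum, Finsupp.sum, map_sum]
      refine Finset.sum_congr rfl fun w _ => ?_
      rw [map_smul]
    rw [e]
    exact Submodule.Quotient.mk_eq_zero L
  constructor
  · intro h c hc h1
    exact h c (fun w hw => hc w hw) ((key c).2 h1)
  · intro h c hc h1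
    exact h c (fun w hw => hc hw) ((key c).1 h1)

/-- an element of `lo n` is a combination of words of smaller weight -/
theorem Brown.exists_of_mem (M : Brown) (P : ℕ → Prop) {x : ℝ}
    (hx : x ∈ Submodule.span ℚ {x | ∃ j, P j ∧ x ∈ Zs j}) :
    ∃ c : Word →₀ ℚ, (∀ w ∈ c.support, P (wt w)) ∧ Finsupp.linearCombination ℚ zeta c = x := by
  have h1 : Submodule.span ℚ {x | ∃ j, P j ∧ x ∈ Zs j} ≤ Submodule.span ℚ (zeta '' {w | P (wt w)}) := by
    rw [Submodule.span_le]
    rintro y ⟨j, hj, hy⟩
    rw [← M.span_eq] at hy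
    refine Submodule.span_mono (Set.image_mono ?_) hy
    intro w hw
    have hw' : wt w = j := hw
    show P (wt w)
    rw [hw']
    exact hj
  obtain ⟨c, hc, h2⟩ := (Finsupp.mem_span_image_iff_linearCombination ℚ).1 (h1 hx)
  exact ⟨c, fun w hw => hc hw, h2⟩

/-- if everything is independent then the words of weight `n` are independent modulo the others -/
theorem Brown.mod_of_indep (M : Brown) (h : LinearIndependent ℚ zeta) (n : ℕ) (P : ℕ → Prop) (hP : ¬ P n) :
    IndepMod n (Submodule.span ℚ {x | ∃ j, P j ∧ x ∈ Zs j}) := by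
  rw [indepMod_iff]
  intro c hc h1
  obtain ⟨e, he, h2⟩ := M.exists_of_mem P h1
  have h3 : c = e := by
    have : Function.Injective (Finsupp.linearCombination ℚ zeta) := h
    exact this h2.symm
  by_contra hne
  obtain ⟨w, hw⟩ := Finsupp.support_nonempty_iff.2 hne
  have h4 := hc w hw
  have h5 := he w (h3 ▸ hw)
  rw [h4] at h5
  exact hP h5

theorem indep_univ : IndepOn Set.univ ↔ LinearIndependent ℚ zeta := by
  rw [indepOn_iff]
  constructor
  · intro h
    rw [linearIndependent_iff]
    exact fun c hc => h c (fun _ _ => trivial) hc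
  · intro h c _ hc
    exact linearIndependent_iff.1 h c hc

theorem Brown.mod_iff (M : Brown) (n : ℕ) (L : Submodule ℚ ℝ) :
    IndepMod n L ↔ finrank ℚ ((Zs n).map L.mkQ) = d n := M.indep_iff L n

/-- Infinitely many weights modulo lower weights are enough. -/
theorem Brown.iff_lo (M : Brown) : LinearIndependent ℚ zeta ↔ ∃ᶠ N in atTop, IndepMod N (lo N) := by
  constructor
  · intro h
    exact Frequently.of_forall fun N => M.mod_of_indep h N (fun j => j < N) (lt_irrefl N)
  · intro h
    by_contra hne
    rw [← indep_univ] at hne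
    obtain ⟨b, _, hb⟩ := M.step_lo hne
    obtain ⟨N, hN, hN2⟩ := (frequently_atTop.1 h) (b + 2)
    rw [M.mod_iff] at hN2
    have h1 := hb N (by omega)
    have h2 := d_pos (N - b) (by omega)
    omega

/-- Infinitely many weights modulo higher weights are enough. -/
theorem Brown.iff_hi (M : Brown) : LinearIndependent ℚ zeta ↔ ∃ᶠ N in atTop, IndepMod N (hi N) := by
  constructor
  · intro h
    exact Frequently.of_forall fun N => M.mod_of_indep h N (fun j => N < j) (lt_irrefl N)
  · intro h
    by_contra hne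
    rw [← indep_univ] at hne
    obtain ⟨b, _, hb⟩ := M.step_hi hne
    obtain ⟨N, hN, hN2⟩ := (frequently_atTop.1 h) (b + 2)
    rw [M.mod_iff] at hN2
    have h1 := hb N (by omega)
    have h2 := d_pos (N - b) (by omega)
    omega

/-! ### Dimensions of the filtered pieces -/

/-- the number of words of weight less than `N` -/
def D (N : ℕ) : ℕ := ∑ j ∈ Finset.range N, d j

theorem D_succ (N : ℕ) : D (N + 1) = D N + d N := by rw [D, D, Finset.sum_range_succ]

theorem D_mono {a b : ℕ} (h : a ≤ b) : D a ≤ D b := by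
  rw [D, D]
  exact Finset.sum_le_sum_of_subset (Finset.range_mono h)

theorem D_pos {a : ℕ} (h : 1 ≤ a) : 1 ≤ D a := by
  have h1 := D_mono h
  have h2 : D 1 = 1 := by simp [D, d]
  omega

theorem D_card (N : ℕ) : {w : Word | wt w < N}.Finite ∧ {w : Word | wt w < N}.ncard = D N := by
  induction N with
  | zero =>
    have e : {w : Word | wt w < 0} = ∅ := by ext w; simp
    rw [e]
    simp [D]
  | succ N ih =>
    have e : {w : Word | wt w < N + 1} = {w : Word | wt w < N} ∪ S N := by
      ext w
      simp only [S, Set.mem_union, Set.mem_ofPred_eq]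
      omega
    have hdis : Disjoint {w : Word | wt w < N} (S N) := by
      rw [Set.disjoint_left]
      intro w hw hw2
      simp only [S, Set.mem_ofPred_eq] at hw hw2
      omega
    rw [e]
    refine ⟨ih.1.union (finite_ncard N).1, ?_⟩
    rw [Set.ncard_union_eq hdis ih.1 (finite_ncard N).1, ih.2, (finite_ncard N).2, D_succ]

theorem lo_zero : lo 0 = ⊥ := by
  rw [lo, Submodule.span_eq_bot]
  rintro x ⟨j, hj, _⟩
  omega

theorem lo_succ (N : ℕ) : lo (N + 1) = lo N ⊔ Zs N := by
  apply le_antisymm
  · rw [lo, Submodule.span_le]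
    rintro x ⟨j, hj, hx⟩
    rcases Nat.lt_succ_iff_lt_or_eq.1 hj with h | rfl
    · exact Submodule.mem_sup_left (le_lo h hx)
    · exact Submodule.mem_sup_right hx
  · refine sup_le ?_ (le_lo (Nat.lt_succ_self N))
    rw [lo, Submodule.span_le]
    rintro x ⟨j, hj, hx⟩
    exact le_lo (Nat.lt_succ_of_lt hj) hx

theorem Brown.fin_lo (M : Brown) (N : ℕ) : FiniteDimensional ℚ (lo N) := by
  induction N with
  | zero => rw [lo_zero]; infer_instance
  | succ N ih =>
    rw [lo_succ]
    have := M.toMotivic.finite N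
    infer_instance

theorem Brown.finrank_lo_succ (M : Brown) (N : ℕ) :
    finrank ℚ (lo (N + 1)) = finrank ℚ (lo N) + finrank ℚ ((Zs N).map (lo N).mkQ) := by
  have := M.fin_lo (N + 1)
  have := M.fin_lo N
  have h1 := ((lo N).mkQ.domRestrict (lo (N + 1))).finrank_range_add_finrank_ker
  rw [LinearMap.range_domRestrict] at h1
  have e1 : (lo (N + 1)).map (lo N).mkQ = (Zs N).map (lo N).mkQ := by
    rw [lo_succ, Submodule.map_sup]
    have : (lo N).map (lo N).mkQ = ⊥ := by
      rw [eq_bot_iff]
      rintro _ ⟨x, hx, rfl⟩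
      rw [Submodule.mem_bot]
      exact (Submodule.Quotient.mk_eq_zero (lo N)).2 hx
    rw [this, bot_sup_eq]
  have hle : lo N ≤ lo (N + 1) := by rw [lo_succ]; exact le_sup_left
  have e2 : LinearMap.ker ((lo N).mkQ.domRestrict (lo (N + 1))) = (lo N).comap (lo (N + 1)).subtype := by
    ext x
    rw [LinearMap.mem_ker, Submodule.mem_comap]
    exact Submodule.Quotient.mk_eq_zero (lo N)
  rw [e1, e2, (Submodule.comapSubtypeEquivOfLe hle).finrank_eq] at h1
  omega

theorem Brown.le_d (M : Brown) (N : ℕ) (L : Submodule ℚ ℝ) : finrank ℚ ((Zs N).map L.mkQ) ≤ d N := by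
  have := M.toMotivic.finite N
  exact (Submodule.finrank_map_le _ _).trans (M.toMotivic.le N)

theorem Brown.lo_le (M : Brown) (N : ℕ) : finrank ℚ (lo N) ≤ D N := by
  induction N with
  | zero => rw [lo_zero]; simp
  | succ N ih =>
    rw [M.finrank_lo_succ, D_succ]
    have := M.le_d N (lo N)
    omega

theorem Brown.total (M : Brown) {b : ℕ} (h : ∀ N, b ≤ N →
    finrank ℚ ((Zs N).map (lo N).mkQ) + d (N - b) ≤ d N) (N : ℕ) :
    finrank ℚ (lo N) + D (N - b) ≤ D N := by
  induction N with
  | zero =>
    rw [lo_zero, Nat.zero_sub]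
    simp [D]
  | succ N ih =>
    rw [M.finrank_lo_succ, D_succ]
    by_cases hb : b ≤ N
    · have h1 := h N hb
      rw [Nat.succ_sub hb, Nat.succ_eq_add_one, D_succ]
      omega
    · have h1 := M.le_d N (lo N)
      have e1 : N + 1 - b = 0 := by omega
      have e2 : D 0 = 0 := by simp [D]
      have h2 := M.lo_le N
      rw [e1, e2]
      omega

theorem D_ratio (b N : ℕ) : D N ≤ D (b + 2) + 2 ^ b * D (N - b) := by
  induction N with
  | zero => simp [D]
  | succ N ih =>
    by_cases hN : b + 2 ≤ N
    · have h2 := d_le_pow (N - b - 2) b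
      have e1 : N - b - 2 + b + 2 = N := by omega
      have e2 : N - b - 2 + 2 = N - b := by omega
      rw [e1, e2] at h2
      have e3 : D (N + 1 - b) = D (N - b) + d (N - b) := by
        rw [show N + 1 - b = (N - b) + 1 by omega, D_succ]
      have e4 := D_succ N
      rw [e3, mul_add]
      omega
    · have h1 : D (N + 1) ≤ D (b + 2) := D_mono (by omega)
      omega

/-- the dimension of the span of everything of weight less than `N` -/
theorem Brown.iff_total (M : Brown) : LinearIndependent ℚ zeta ↔
    ∀ ε : ℝ, 0 < ε → ∃ᶠ N in atTop, (1 - ε) * D N < finrank ℚ (lo N) := by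
  constructor
  · intro h ε hε
    rw [frequently_atTop]
    intro a
    refine ⟨a + 1, by omega, ?_⟩
    have h1 : ∀ N, finrank ℚ (lo N) = D N := by
      intro N
      induction N with
      | zero => rw [lo_zero]; simp [D]
      | succ N ih =>
        rw [M.finrank_lo_succ, D_succ, ih,
          (M.mod_iff N (lo N)).1 (M.mod_of_indep h N (fun j => j < N) (lt_irrefl N))]
    rw [h1]
    have h2 : (1 : ℝ) ≤ D (a + 1) := by exact_mod_cast D_pos (by omega)
    nlinarith
  · intro h
    by_contra hne
    rw [← indep_univ] at hne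
    obtain ⟨b, _, hb⟩ := M.step_lo hne
    set C : ℕ := D (b + 2) + 2 ^ b with hC
    have hC0 : (0 : ℝ) < C := by
      have : 0 < C := by rw [hC]; positivity
      exact_mod_cast this
    obtain ⟨N, hN, hN2⟩ := (frequently_atTop.1 (h (C : ℝ)⁻¹ (by positivity))) (b + 1)
    have h1 := M.total hb N
    have h2 := D_ratio b N
    have h3 : 1 ≤ D (N - b) := D_pos (by omega)
    have h4 : D N ≤ C * D (N - b) := by
      rw [hC]
      nlinarith
    have h5 : (D N : ℝ) ≤ C * D (N - b) := by exact_mod_cast h4
    have h6 : (finrank ℚ (lo N) : ℝ) + D (N - b) ≤ D N := by exact_mod_cast h1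
    have h7 : (C : ℝ)⁻¹ * D N ≤ D (N - b) := by
      rw [inv_mul_le_iff₀ hC0]
      exact h5
    nlinarith

/-! ### Sets of weights -/

/-- directness and the dimensions give everything up to a weight -/
theorem upTo_of_direct {p : ℕ} (h1 : ∀ n ≤ p, IndepOn {n}) (h2 : Direct p) : IndepOn (Set.Iic p) := by
  classical
  rw [indepOn_iff]
  intro c hcs hc
  set z : ℕ → ℝ := fun j => Finsupp.linearCombination ℚ zeta (c.filter (fun w => wt w = j)) with hz
  have hmem : ∀ j, z j ∈ Zs j := by
    intro j
    rw [hz]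
    simp only
    rw [Finsupp.linearCombination_apply, Finsupp.sum]
    refine Submodule.sum_mem _ fun w hw => Submodule.smul_mem _ _ ?_
    rw [Finsupp.support_filter, Finset.mem_filter] at hw
    rw [← hw.2]
    exact zeta_mem w
  have hsum : ∑ j ∈ Finset.range (p + 1), z j = 0 := by
    rw [← hc, hz]
    simp only
    rw [← map_sum]
    congr 1
    ext w
    rw [Finsupp.finsetSum_apply]
    simp only [Finsupp.filter_apply]
    rw [Finset.sum_ite_eq]
    split_ifs with h
    · rfl
    · by_contra hne
      have h3 : w ∈ c.support := Finsupp.mem_support_iff.2 (fun h0 => hne h0.symm)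
      have h4 : wt w ≤ p := hcs w h3
      exact h (Finset.mem_range.2 (by omega))
  have hall := h2 z (fun j _ => hmem j) hsum
  ext w
  by_contra hne
  have h3 : w ∈ c.support := Finsupp.mem_support_iff.2 hne
  have h4 : wt w ≤ p := hcs w h3
  have h5 := hall (wt w) h4
  have h6 := (indepOn_iff _).1 (h1 (wt w) h4) (c.filter (fun u => wt u = wt w)) (fun u hu => by
    rw [Finsupp.support_filter, Finset.mem_filter] at hu
    exact hu.2) h5
  have h7 := congrArg (fun f : Word →₀ ℚ => f w) h6
  simp only [Finsupp.filter_apply, if_true, Finsupp.coe_zero, Pi.zero_apply] at h7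
  exact hne h7

/-- directness and the dimensions give everything -/
theorem of_direct (h1 : ∀ n, IndepOn {n}) (h2 : ∀ p, Direct p) : LinearIndependent ℚ zeta := by
  rw [linearIndependent_iff]
  intro c hc
  refine (indepOn_iff _).1 (upTo_of_direct (fun n _ => h1 n) (h2 (c.support.sup wt))) c (fun w hw => ?_) hc
  exact Finset.le_sup (f := wt) hw

theorem Brown.dirSet (M : Brown) {A : Set ℕ} (h : IndepOn A) : DirSet A := by
  classical
  intro F hF z hz hs j hj
  have hex : ∀ i ∈ F, ∃ c : Word →₀ ℚ, (∀ w ∈ c.support, wt w = i) ∧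
      Finsupp.linearCombination ℚ zeta c = z i := by
    intro i hi
    have h1 := hz i hi
    rw [← M.span_eq] at h1
    obtain ⟨c, hc, h2⟩ := (Finsupp.mem_span_image_iff_linearCombination ℚ).1 h1
    exact ⟨c, fun w hw => hc hw, h2⟩
  choose! c hc1 hc2 using hex
  have h1 : Finsupp.linearCombination ℚ zeta (∑ i ∈ F, c i) = 0 := by
    rw [map_sum, ← hs]
    exact Finset.sum_congr rfl fun i hi => hc2 i hi
  have h2 := (indepOn_iff A).1 h (∑ i ∈ F, c i) (fun w hw => by
    obtain ⟨i, hi, hw2⟩ := Finsupp.mem_support_finsetSum w hw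
    rw [hc1 i hi w hw2]
    exact hF hi) h1
  have h3 : c j = 0 := by
    ext w
    by_contra hne
    have hw : w ∈ (c j).support := Finsupp.mem_support_iff.2 hne
    have h4 := congrArg (fun f : Word →₀ ℚ => f w) h2
    simp only [Finsupp.finsetSum_apply, Finsupp.coe_zero, Pi.zero_apply] at h4
    rw [Finset.sum_eq_single j] at h4
    · exact hne h4
    · intro i hi hij
      by_contra hne2
      have h5 := hc1 i hi w (Finsupp.mem_support_iff.2 hne2)
      have h6 := hc1 j hj w hw
      exact hij (h5.symm.trans h6)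
    · intro h7
      exact absurd hj h7
  rw [← hc2 j hj, h3, map_zero]

theorem Brown.dims (M : Brown) {A : Set ℕ} (hA : A.Infinite) (h : IndepOn A) : ∀ n, IndepOn {n} := by
  have h1 : ∃ᶠ N in atTop, finrank ℚ (Zs N) = d N := by
    rw [frequently_atTop]
    intro a
    obtain ⟨n, hn, han⟩ := hA.exists_gt a
    refine ⟨n, han.le, ?_⟩
    rw [← indepOn_singleton_iff M]
    exact h.mono (Set.singleton_subset_iff.2 hn)
  have h2 := M.toMotivic.iff_frequently.2 h1
  intro n
  exact (indepOn_singleton_iff M n).2 (h2 n)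

open Classical in
/-- sets with many elements in infinitely many short intervals -/
theorem Brown.iff_windows (M : Brown) {A : Set ℕ} (hA : ∀ L, ∃ N, ∀ K, ∃ n ≥ K,
    L ≤ ((Finset.range N).filter fun i => n + i ∈ A).card) : LinearIndependent ℚ zeta ↔ IndepOn A := by
  constructor
  · intro h
    exact (indep_univ.2 h).mono (Set.subset_univ _)
  · intro h
    have hinf : A.Infinite := by
      obtain ⟨N, hN⟩ := hA 1
      rw [Set.infinite_iff_exists_gt]
      intro a
      obtain ⟨n, hn, hc⟩ := hN (a + 1)
      obtain ⟨i, hi⟩ := Finset.card_pos.1 hc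
      rw [Finset.mem_filter] at hi
      exact ⟨n + i, hi.2, by omega⟩
    exact of_direct (M.dims hinf h) ((windows hA).2 (M.dirSet h))

theorem Brown.iff_partition (M : Brown) (r : ℕ) (c : ℕ → Fin r) :
    LinearIndependent ℚ zeta ↔ ∀ i, IndepOn (c ⁻¹' {i}) := by
  constructor
  · intro h i
    exact (indep_univ.2 h).mono (Set.subset_univ _)
  · intro h
    obtain ⟨i, hi⟩ := Finite.exists_infinite_fiber c
    have hinf : (c ⁻¹' {i}).Infinite := Set.infinite_coe_iff.1 hi
    exact of_direct (M.dims hinf (h i)) ((partition r c).2 fun i => M.dirSet (h i))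

/-! ### The set of good weights -/

/-- all words up to the weight `n` -/
theorem Brown.mod_of_upTo (M : Brown) {n : ℕ} (h : IndepOn (Set.Iic n)) : IndepMod n (lo n) := by
  rw [indepMod_iff]
  intro c hc h1
  obtain ⟨e, he, h2⟩ := M.exists_of_mem (fun j => j < n) h1
  have h3 : c - e = 0 := by
    refine (indepOn_iff _).1 h (c - e) (fun w hw => ?_) ?_
    · by_cases hw1 : w ∈ c.support
      · rw [hc w hw1]; exact Set.mem_Iic.2 le_rfl
      · have hw2 : w ∈ e.support := by
          rw [Finsupp.mem_support_iff] at hw ⊢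
          intro h0
          apply hw
          rw [Finsupp.coe_sub, Pi.sub_apply, h0, sub_zero]
          exact Finsupp.notMem_support_iff.1 hw1
        exact Set.mem_Iic.2 (he w hw2).le
    · rw [map_sub, h2, sub_self]
  have h4 : c = e := sub_eq_zero.1 h3
  by_contra hne
  obtain ⟨w, hw⟩ := Finsupp.support_nonempty_iff.2 hne
  have h5 := hc w hw
  have h6 := he w (h4 ▸ hw)
  omega

/-- if everything is independent up to each weight, then everything is -/
theorem indep_of_upTo (h : ∀ m, IndepOn (Set.Iic m)) : LinearIndependent ℚ zeta := by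
  rw [linearIndependent_iff]
  intro c hc
  refine (indepOn_iff _).1 (h (c.support.sup wt)) c (fun w hw => ?_) hc
  exact Finset.le_sup (f := wt) hw

/-- a first weight with a relation -/
theorem Brown.first (M : Brown) {m : ℕ} (h0 : IndepOn (Set.Iic m)) (h1 : ¬ IndepOn (Set.Iic (m + 1))) :
    (∀ N, m < N → finrank ℚ ((Zs N).map (lo N).mkQ) + d (N - (m + 1)) ≤ d N) ∧
    ({N | IndepMod N (lo N)} = Set.Iic m ∨ {N | IndepMod N (lo N)} = insert (m + 2) (Set.Iic m)) := by
  have hgood : ∀ N ≤ m, IndepMod N (lo N) := fun N hN => M.mod_of_upTo (h0.mono (Set.Iic_subset_Iic.2 hN))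
  obtain ⟨b, hb, h2⟩ := M.step_lo h1
  have hb1 : b = m + 1 := by
    by_contra hne
    have hb2 : b ≤ m := by
      have := Set.mem_Iic.1 hb
      omega
    have h3 := h2 b le_rfl
    have h4 := (M.mod_iff b (lo b)).1 (hgood b hb2)
    rw [h4, Nat.sub_self] at h3
    have h5 := d_pos 0 (by norm_num)
    omega
  subst hb1
  refine ⟨fun N hN => h2 N hN, ?_⟩
  have hbad : ∀ N, m < N → N ≠ m + 2 → ¬ IndepMod N (lo N) := by
    intro N hN hN2 hg
    rw [M.mod_iff] at hg
    have h3 := h2 N hN
    have h4 := d_pos (N - (m + 1)) (by omega)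
    omega
  by_cases hg : IndepMod (m + 2) (lo (m + 2))
  · right
    ext N
    rw [Set.mem_ofPred_eq, Set.mem_insert_iff, Set.mem_Iic]
    constructor
    · intro h
      by_contra hc
      push Not at hc
      exact hbad N hc.2 hc.1 h
    · rintro (rfl | h)
      · exact hg
      · exact hgood N h
  · left
    ext N
    rw [Set.mem_ofPred_eq, Set.mem_Iic]
    constructor
    · intro h
      by_contra hc
      push Not at hc
      by_cases hN : N = m + 2
      · subst hN; exact hg h
      · exact hbad N hc hN h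
    · exact hgood N

end Pool.Agent.Q127.HB
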