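import Pool.Agent.Q127.HB.Words
import Pool.Agent.Q263.ZO.Graded
import Pool.Agent.Y123.MZ.Indep

/-!
# Zero-one laws for Hoffman's basis conjecture
-/

set_option autoImplicit false

open Module Filter

namespace Pool.Agent.Q127.HB

open Pool.Agent.Q263.ZO Pool.Agent.H447R2.MZ Pool.Agent.Y123.MZ

/-- the multiple zeta value of a word -/
noncomputable def zeta (w : Word) : ℝ :=
  ∑' k : {k : Fin w.1 → ℕ // StrictAnti k ∧ ∀ i, 0 < k i}, ∏ i, ((k.1 i : ℝ) ^ (w.2.1 i))⁻¹

/-- Brown's theorem, see the results file -/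
structure Brown where
  H : Type
  [ring : CommRing H]
  [dom : IsDomain H]
  [alg : Algebra ℚ H]
  z : Word → H
  indep : LinearIndependent ℚ z
  mul : ∀ u v : Word, z u * z v ∈ Submodule.span ℚ (z '' {w | wt w = wt u + wt v})
  per : H →ₐ[ℚ] ℝ
  per_z : ∀ w, per (z w) = zeta w
  span : ∀ n, Zs n ≤ Submodule.span ℚ (zeta '' {w | wt w = n})

attribute [instance] Brown.ring Brown.dom Brown.alg

theorem zeta_mem (w : Word) : zeta w ∈ Zs (wt w) := by
  apply Submodule.subset_span
  refine ⟨w.1, w.2.1, fun i => ?_, fun h => ?_, rfl, rfl⟩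
  · rcases w.2.2 i with h | h <;> omega
  · rcases w.2.2 ⟨0, h⟩ with h | h <;> omega

/-- the part of weight `n` -/
def Brown.W (M : Brown) (n : ℕ) : Submodule ℚ M.H := Submodule.span ℚ (M.z '' S n)

theorem Brown.z_mem (M : Brown) {w : Word} {n : ℕ} (h : wt w = n) : M.z w ∈ M.W n :=
  Submodule.subset_span ⟨w, h, rfl⟩

theorem Brown.mulW (M : Brown) {a b : ℕ} {x y : M.H} (hx : x ∈ M.W a) (hy : y ∈ M.W b) :
    x * y ∈ M.W (a + b) := by
  have h1 : x * y ∈ M.W a * M.W b := Submodule.mul_mem_mul hx hy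
  refine (Submodule.mul_le.2 ?_ : M.W a * M.W b ≤ M.W (a + b)) h1
  intro m hm n hn
  refine Submodule.span_induction (p := fun m _ => m * n ∈ M.W (a + b)) ?_ ?_ ?_ ?_ hm
  · rintro _ ⟨u, hu, rfl⟩
    refine Submodule.span_induction (p := fun n _ => M.z u * n ∈ M.W (a + b)) ?_ ?_ ?_ ?_ hn
    · rintro _ ⟨v, hv, rfl⟩
      have h2 := M.mul u v
      have e : {w : Word | wt w = wt u + wt v} = S (a + b) := by
        have hu' : wt u = a := hu
        have hv' : wt v = b := hv
        rw [hu', hv']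
        rfl
      rw [e] at h2
      exact h2
    · rw [mul_zero]; exact Submodule.zero_mem _
    · intro p q _ _ hp hq
      rw [mul_add]; exact Submodule.add_mem _ hp hq
    · intro c p _ hp
      rw [mul_smul_comm]; exact Submodule.smul_mem _ _ hp
  · rw [zero_mul]; exact Submodule.zero_mem _
  · intro p q _ _ hp hq
    rw [add_mul]; exact Submodule.add_mem _ hp hq
  · intro c p _ hp
    rw [smul_mul_assoc]; exact Submodule.smul_mem _ _ hp

theorem Brown.span_eq (M : Brown) (n : ℕ) : Submodule.span ℚ (zeta '' S n) = Zs n := by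
  refine le_antisymm ?_ (M.span n)
  rw [Submodule.span_le]
  rintro _ ⟨w, hw, rfl⟩
  have hw' : wt w = n := hw
  rw [← hw']
  exact zeta_mem w

theorem Brown.mapW (M : Brown) (n : ℕ) : (M.W n).map M.per.toLinearMap = Zs n := by
  rw [Brown.W, Submodule.map_span, ← M.span_eq n, Set.image_image]
  congr 1
  refine Set.image_congr fun w _ => ?_
  exact M.per_z w

instance finS (n : ℕ) : Finite (S n) := (finite_ncard n).1.to_subtype

theorem card_S (n : ℕ) : Nat.card (S n) = d n := by
  rw [Nat.card_coe_set_eq]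
  exact (finite_ncard n).2

theorem Brown.finW (M : Brown) (n : ℕ) : FiniteDimensional ℚ (M.W n) := by
  rw [Brown.W]
  exact FiniteDimensional.span_of_finite ℚ ((finite_ncard n).1.image _)

theorem Brown.rankW (M : Brown) (n : ℕ) : finrank ℚ (M.W n) = d n := by
  classical
  have := Fintype.ofFinite (S n)
  have h1 : LinearIndependent ℚ (fun w : S n => M.z w) := M.indep.comp _ Subtype.val_injective
  have h2 := finrank_span_eq_card h1
  have e : Set.range (fun w : S n => M.z w) = M.z '' S n := by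
    rw [← Set.image_eq_range]
  rw [e, ← Nat.card_eq_fintype_card, card_S] at h2
  exact h2

/-- the structure of `Q263.ZO` -/
def Brown.toMotivic (M : Brown) : Motivic Zs where
  H := M.H
  W := M.W
  fin := M.finW
  rank := M.rankW
  mul := fun _ _ _ _ hx hy => M.mulW hx hy
  per := M.per
  map := M.mapW

/-- the span of the spaces of weight less than `N` -/
noncomputable def lo (N : ℕ) : Submodule ℚ ℝ := Submodule.span ℚ {x | ∃ j, j < N ∧ x ∈ Zs j}

/-- the span of the spaces of weight larger than `N` -/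
noncomputable def hi (N : ℕ) : Submodule ℚ ℝ := Submodule.span ℚ {x | ∃ j, N < j ∧ x ∈ Zs j}

theorem le_lo {j N : ℕ} (h : j < N) : Zs j ≤ lo N := fun _ hx => Submodule.subset_span ⟨j, h, hx⟩

theorem le_hi {j N : ℕ} (h : N < j) : Zs j ≤ hi N := fun _ hx => Submodule.subset_span ⟨j, h, hx⟩

/-- linear independence of the values of the words with weight in `A` -/
def IndepOn (A : Set ℕ) : Prop := LinearIndepOn ℚ zeta {w | wt w ∈ A}

theorem Brown.per_lc (M : Brown) (c : Word →₀ ℚ) :
    M.per (Finsupp.linearCombination ℚ M.z c) = Finsupp.linearCombination ℚ zeta c := by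
  rw [Finsupp.linearCombination_apply, Finsupp.linearCombination_apply, Finsupp.sum, Finsupp.sum, map_sum]
  refine Finset.sum_congr rfl fun w _ => ?_
  rw [map_smul, M.per_z]

theorem Brown.lc_mul_mem (M : Brown) (c : Word →₀ ℚ) {m : ℕ} {y : M.H} (hy : y ∈ M.W m)
    (L : Submodule ℚ ℝ) (hL : ∀ w ∈ c.support, Zs (wt w + m) ≤ L) :
    M.per (Finsupp.linearCombination ℚ M.z c * y) ∈ L := by
  rw [Finsupp.linearCombination_apply, Finsupp.sum, Finset.sum_mul, map_sum]
  refine Submodule.sum_mem _ fun w hw => ?_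
  rw [smul_mul_assoc, map_smul]
  refine Submodule.smul_mem _ _ (hL w hw ?_)
  rw [← M.mapW]
  exact ⟨_, M.mulW (M.z_mem rfl) hy, rfl⟩

theorem Brown.lc_mem (M : Brown) (c : Word →₀ ℚ) {b : ℕ} (hc : ∀ w ∈ c.support, wt w = b) :
    Finsupp.linearCombination ℚ M.z c ∈ M.W b := by
  rw [Finsupp.linearCombination_apply, Finsupp.sum]
  exact Submodule.sum_mem _ fun w hw => Submodule.smul_mem _ _ (M.z_mem (hc w hw))

/-- the common part: the component of weight `b` of a relation, modulo a space containing the other ones -/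
theorem Brown.comp (M : Brown) (c : Word →₀ ℚ) (h0 : Finsupp.linearCombination ℚ zeta c = 0) (w0 : Word)
    (hw0 : w0 ∈ c.support) :
    ∃ x ∈ M.W (wt w0), x ≠ 0 ∧ ∀ (m : ℕ) (L : Submodule ℚ ℝ),
      (∀ w ∈ c.support, wt w ≠ wt w0 → Zs (wt w + m) ≤ L) → ∀ y ∈ M.W m, M.per (x * y) ∈ L := by
  classical
  set ct := c.filter (fun w => wt w = wt w0) with hct
  set cr := c.filter (fun w => ¬ wt w = wt w0) with hcr
  have hsum : ct + cr = c := Finsupp.filter_add_filter_not c _
  refine ⟨Finsupp.linearCombination ℚ M.z ct, M.lc_mem ct (fun w hw => ?_), ?_, ?_⟩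
  · rw [hct, Finsupp.support_filter, Finset.mem_filter] at hw
    exact hw.2
  · intro hx
    have h1 : ct = 0 := by
      have := linearIndependent_iff.1 M.indep ct hx
      exact this
    have h2 : ct w0 = c w0 := by
      rw [hct, Finsupp.filter_apply, if_pos rfl]
    rw [h1] at h2
    exact (Finsupp.mem_support_iff.1 hw0) h2.symm
  · intro m L hL y hy
    have h1 : M.per (Finsupp.linearCombination ℚ M.z c * y) = 0 := by
      rw [map_mul, M.per_lc, h0, zero_mul]
    rw [← hsum, map_add, add_mul, map_add] at h1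
    have h2 := M.lc_mul_mem cr hy L (fun w hw => by
      rw [hcr, Finsupp.support_filter, Finset.mem_filter] at hw
      exact hL w hw.1 hw.2)
    rw [eq_neg_of_add_eq_zero_left h1]
    exact Submodule.neg_mem _ h2

theorem Brown.drop' (M : Brown) (L : Submodule ℚ ℝ) {b N : ℕ} (hN : b ≤ N) (x : M.H) (hx : x ∈ M.W b)
    (hx0 : x ≠ 0) (h : ∀ y ∈ M.W (N - b), M.per (x * y) ∈ L) :
    finrank ℚ ((Zs N).map L.mkQ) + d (N - b) ≤ d N := by
  have := M.finW N
  have h1 := drop (L.mkQ ∘ₗ M.per.toLinearMap) (M.W (N - b)) (M.W N) x hx0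
    (fun y hy => by
      have := M.mulW hx hy
      rwa [Nat.add_sub_cancel' hN] at this)
    (fun y hy => by
      have h3 : M.per (x * y) ∈ L := h y hy
      have h4 : (L.mkQ ∘ₗ M.per.toLinearMap) (x * y) = L.mkQ (M.per (x * y)) := rfl
      rw [h4]
      exact (Submodule.Quotient.mk_eq_zero L).2 h3)
  rwa [Submodule.map_comp, M.mapW, M.rankW, M.rankW] at h1

theorem exists_rel {A : Set ℕ} (h : ¬ IndepOn A) : ∃ c : Word →₀ ℚ, c ≠ 0 ∧
    (∀ w ∈ c.support, wt w ∈ A) ∧ Finsupp.linearCombination ℚ zeta c = 0 := by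
  unfold IndepOn at h
  rw [linearIndepOn_iff] at h
  push Not at h
  obtain ⟨c, hc, h1, h2⟩ := h
  exact ⟨c, h2, fun w hw => hc hw, h1⟩

theorem Brown.step_lo (M : Brown) {A : Set ℕ} (h : ¬ IndepOn A) : ∃ b ∈ A, ∀ N, b ≤ N →
    finrank ℚ ((Zs N).map (lo N).mkQ) + d (N - b) ≤ d N := by
  obtain ⟨c, hc, hA, h0⟩ := exists_rel h
  obtain ⟨w0, hw0, hmax⟩ := Finset.exists_max_image c.support wt (Finsupp.support_nonempty_iff.2 hc)
  obtain ⟨x, hx, hx0, hy⟩ := M.comp c h0 w0 hw0
  refine ⟨wt w0, hA w0 hw0, fun N hN => M.drop' (lo N) hN x hx hx0 (hy _ _ fun w hw hne => ?_)⟩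
  have := hmax w hw
  exact le_lo (by omega)

theorem Brown.step_hi (M : Brown) {A : Set ℕ} (h : ¬ IndepOn A) : ∃ b ∈ A, ∀ N, b ≤ N →
    finrank ℚ ((Zs N).map (hi N).mkQ) + d (N - b) ≤ d N := by
  obtain ⟨c, hc, hA, h0⟩ := exists_rel h
  obtain ⟨w0, hw0, hmin⟩ := Finset.exists_min_image c.support wt (Finsupp.support_nonempty_iff.2 hc)
  obtain ⟨x, hx, hx0, hy⟩ := M.comp c h0 w0 hw0
  refine ⟨wt w0, hA w0 hw0, fun N hN => M.drop' (hi N) hN x hx hx0 (hy _ _ fun w hw hne => ?_)⟩
  have := hmin w hw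
  exact le_hi (by omega)

/-- Independence of the words of weight `n` modulo a subspace is a question of dimension. -/
theorem Brown.indep_iff (M : Brown) (L : Submodule ℚ ℝ) (n : ℕ) :
    LinearIndepOn ℚ (fun w => L.mkQ (zeta w)) {w | wt w = n} ↔ finrank ℚ ((Zs n).map L.mkQ) = d n := by
  classical
  have := Fintype.ofFinite (S n)
  have e : Set.range (fun w : S n => L.mkQ (zeta w)) = L.mkQ '' (zeta '' S n) := by
    rw [Set.image_image, Set.image_eq_range]
  have h1 : LinearIndepOn ℚ (fun w => L.mkQ (zeta w)) {w | wt w = n} ↔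
      LinearIndependent ℚ (fun w : S n => L.mkQ (zeta w)) := Iff.rfl
  rw [h1, linearIndependent_iff_card_eq_finrank_span, Set.finrank, e, ← Submodule.map_span, M.span_eq,
    ← Nat.card_eq_fintype_card, card_S]
  exact eq_comm

theorem indepOn_singleton_iff (M : Brown) (n : ℕ) :
    LinearIndepOn ℚ zeta {w | wt w = n} ↔ finrank ℚ (Zs n) = d n := by
  classical
  have := Fintype.ofFinite (S n)
  have e : Set.range (fun w : S n => zeta w) = zeta '' S n := by
    rw [Set.image_eq_range]
  have h1 : LinearIndepOn ℚ zeta {w | wt w = n} ↔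
      LinearIndependent ℚ (fun w : S n => zeta w) := Iff.rfl
  rw [h1, linearIndependent_iff_card_eq_finrank_span, Set.finrank, e, M.span_eq,
    ← Nat.card_eq_fintype_card, card_S]
  exact eq_comm

end Pool.Agent.Q127.HB
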