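import Pool.Agent.H447R2.MZ.Tup

/-!
# Relations between real multiple zeta values and another family with the stuffle product
-/

set_option autoImplicit false

open Filter Pointwise

namespace Pool.Agent.Q127.SF

open Pool.Agent.H447R2.MZ

/-- a family with values in a ring has the stuffle product -/
def HasStuffle {A : Type} [CommRing A] (Z : List ℕ → A) : Prop :=
  Z [] = 1 ∧ ∀ s t, Adm s → Adm t → Z s * Z t = ((st s t).map Z).sum

/-- the `ℚ`-span of the values of the admissible indices with weight in `P` -/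
def Sp {A : Type} [CommRing A] [Algebra ℚ A] (Z : List ℕ → A) (P : Set ℕ) : Submodule ℚ A :=
  Submodule.span ℚ (Z '' {s | Adm s ∧ s.sum ∈ P})

theorem val_nil : val [] = 1 := by
  simp [val, H_nil]

theorem real_stuffle : HasStuffle val := ⟨val_nil, fun s t hs ht => val_mul s t hs ht⟩

variable {A : Type} [CommRing A] [Algebra ℚ A]

/-- the pair of the real value and the value in `A` -/
noncomputable def pair (Z : List ℕ → A) (s : List ℕ) : ℝ × A := (val s, Z s)

omit [Algebra ℚ A] in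
theorem sum_fst (Z : List ℕ → A) (L : List (List ℕ)) : (L.map (pair Z)).sum = ((L.map val).sum, (L.map Z).sum) := by
  induction L with
  | nil => rfl
  | cons a L ih =>
    rw [List.map_cons, List.sum_cons, ih, List.map_cons, List.sum_cons, List.map_cons, List.sum_cons]
    rfl

theorem pair_stuffle {Z : List ℕ → A} (hZ : HasStuffle Z) : HasStuffle (pair Z) := by
  refine ⟨Prod.ext val_nil hZ.1, fun s t hs ht => ?_⟩
  rw [sum_fst, ← val_mul s t hs ht, ← hZ.2 s t hs ht]
  rfl

theorem Sp_mono (Z : List ℕ → A) {P Q : Set ℕ} (h : P ⊆ Q) : Sp Z P ≤ Sp Z Q :=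
  Submodule.span_mono (Set.image_mono fun _ hs => ⟨hs.1, h hs.2⟩)

theorem Sp_mul {Z : List ℕ → A} (hZ : HasStuffle Z) {P Q : Set ℕ} {x y : A} (hx : x ∈ Sp Z P) (hy : y ∈ Sp Z Q) :
    x * y ∈ Sp Z (P + Q) := by
  refine Submodule.span_induction (p := fun x _ => x * y ∈ Sp Z (P + Q)) ?_ ?_ ?_ ?_ hx
  · rintro _ ⟨s, hs, rfl⟩
    refine Submodule.span_induction (p := fun y _ => Z s * y ∈ Sp Z (P + Q)) ?_ ?_ ?_ ?_ hy
    · rintro _ ⟨t, ht, rfl⟩
      rw [hZ.2 s t hs.1 ht.1]
      refine list_sum_mem ?_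
      intro a ha
      obtain ⟨u, hu, rfl⟩ := List.mem_map.1 ha
      refine Submodule.subset_span ⟨u, ⟨st_adm s t hs.1 ht.1 u hu, ?_⟩, rfl⟩
      rw [st_sum s t u hu]
      exact Set.add_mem_add hs.2 ht.2
    · rw [mul_zero]; exact Submodule.zero_mem _
    · intro a b _ _ ha hb
      rw [mul_add]; exact Submodule.add_mem _ ha hb
    · intro c a _ ha
      rw [mul_smul_comm]; exact Submodule.smul_mem _ _ ha
  · rw [zero_mul]; exact Submodule.zero_mem _
  · intro a b _ _ ha hb
    rw [add_mul]; exact Submodule.add_mem _ ha hb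
  · intro c a _ ha
    rw [smul_mul_assoc]; exact Submodule.smul_mem _ _ ha

/-- the values in `A` of the real relations with weights in `P` -/
noncomputable def Viol (Z : List ℕ → A) (P : Set ℕ) : Submodule ℚ A :=
  (Sp (pair Z) P).comap (LinearMap.inr ℚ ℝ A)

/-- every real linear relation with weights in `P` holds for `Z` -/
def Transfer (Z : List ℕ → A) (P : Set ℕ) : Prop :=
  ∀ c : List ℕ →₀ ℚ, (∀ s ∈ c.support, Adm s ∧ s.sum ∈ P) →
    c.sum (fun s q => q • val s) = 0 → c.sum (fun s q => q • Z s) = 0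

theorem sum_pair (Z : List ℕ → A) (c : List ℕ →₀ ℚ) : Finsupp.linearCombination ℚ (pair Z) c =
    (c.sum (fun s q => q • val s), c.sum (fun s q => q • Z s)) := by
  rw [Finsupp.linearCombination_apply]
  apply Prod.ext
  · simp only [Finsupp.sum, Prod.fst_sum]
    rfl
  · simp only [Finsupp.sum, Prod.snd_sum]
    rfl

theorem mem_Viol (Z : List ℕ → A) (P : Set ℕ) (a : A) : a ∈ Viol Z P ↔
    ∃ c : List ℕ →₀ ℚ, (∀ s ∈ c.support, Adm s ∧ s.sum ∈ P) ∧
      c.sum (fun s q => q • val s) = 0 ∧ c.sum (fun s q => q • Z s) = a := by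
  rw [Viol, Submodule.mem_comap, Sp, Finsupp.mem_span_image_iff_linearCombination]
  constructor
  · rintro ⟨c, hc, h⟩
    rw [sum_pair] at h
    exact ⟨c, fun s hs => hc hs, congrArg Prod.fst h, congrArg Prod.snd h⟩
  · rintro ⟨c, hc, h1, h2⟩
    refine ⟨c, fun s hs => hc s hs, ?_⟩
    rw [sum_pair, h1, h2]
    rfl

theorem transfer_iff (Z : List ℕ → A) (P : Set ℕ) : Transfer Z P ↔ Viol Z P = ⊥ := by
  rw [eq_bot_iff]
  constructor
  · intro h a ha
    obtain ⟨c, hc, h1, h2⟩ := (mem_Viol Z P a).1 ha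
    rw [Submodule.mem_bot, ← h2]
    exact h c hc h1
  · intro h c hc h1
    exact (Submodule.mem_bot ℚ).1 (h ((mem_Viol Z P _).2 ⟨c, hc, h1, rfl⟩))

theorem Viol_mono (Z : List ℕ → A) {P Q : Set ℕ} (h : P ⊆ Q) : Viol Z P ≤ Viol Z Q :=
  Submodule.comap_mono (Sp_mono (pair Z) h)

/-- the real relations form an ideal, and so do their values -/
theorem Viol_mul {Z : List ℕ → A} (hZ : HasStuffle Z) {P Q : Set ℕ} {a b : A} (ha : a ∈ Viol Z P)
    (hb : b ∈ Sp Z Q) : a * b ∈ Viol Z (P + Q) := by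
  have h1 : ∃ r : ℝ, (r, b) ∈ Sp (pair Z) Q := by
    rw [Sp, Finsupp.mem_span_image_iff_linearCombination] at hb
    obtain ⟨c, hc, h⟩ := hb
    refine ⟨c.sum (fun s q => q • val s), ?_⟩
    rw [Sp, Finsupp.mem_span_image_iff_linearCombination]
    refine ⟨c, hc, ?_⟩
    rw [sum_pair]
    refine Prod.ext rfl ?_
    rw [← h, Finsupp.linearCombination_apply]
  obtain ⟨r, hr⟩ := h1
  have h2 := Sp_mul (pair_stuffle hZ) (x := ((0 : ℝ), a)) ha hr
  have e : ((0 : ℝ), a) * (r, b) = (0, a * b) := by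
    rw [Prod.mk_mul_mk, zero_mul]
  rw [e] at h2
  exact h2

/-- one violated relation gives many -/
theorem rank_le [IsDomain A] {Z : List ℕ → A} (hZ : HasStuffle Z) {P : Set ℕ} (h : ¬ Transfer Z P) (Q : Set ℕ) :
    Module.rank ℚ (Sp Z Q) ≤ Module.rank ℚ (Viol Z (P + Q)) := by
  rw [transfer_iff, Submodule.eq_bot_iff] at h
  push Not at h
  obtain ⟨a, ha, ha0⟩ := h
  let f : Sp Z Q →ₗ[ℚ] Viol Z (P + Q) := LinearMap.codRestrict _ ((LinearMap.mulLeft ℚ a).domRestrict (Sp Z Q))
    (fun b => Viol_mul hZ ha b.2)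
  refine LinearMap.rank_le_of_injective f ?_
  intro x y hxy
  have h3 : a * (x : A) = a * (y : A) := congrArg (fun t : Viol Z (P + Q) => (t : A)) hxy
  exact Subtype.ext (mul_left_cancel₀ ha0 h3)

/-- the dimension of the span of the pairs -/
theorem rank_pair (Z : List ℕ → A) (P : Set ℕ) : Module.rank ℚ (Sp (pair Z) P) =
    Module.rank ℚ (Sp val P) + Module.rank ℚ (Viol Z P) := by
  let f : Sp (pair Z) P →ₗ[ℚ] ℝ := (LinearMap.fst ℚ ℝ A).domRestrict (Sp (pair Z) P)
  have h1 := LinearMap.rank_range_add_rank_ker f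
  have e1 : LinearMap.range f = Sp val P := by
    rw [LinearMap.range_domRestrict, Sp, Submodule.map_span, Set.image_image]
    rfl
  have e2 : Module.rank ℚ (LinearMap.ker f) = Module.rank ℚ (Viol Z P) := by
    let g : LinearMap.ker f →ₗ[ℚ] Viol Z P := LinearMap.codRestrict _
      ((LinearMap.snd ℚ ℝ A) ∘ₗ (Sp (pair Z) P).subtype ∘ₗ (LinearMap.ker f).subtype) (by
        intro x
        have hx : ((x : Sp (pair Z) P) : ℝ × A).1 = 0 := x.2
        rw [Viol, Submodule.mem_comap]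
        have e : LinearMap.inr ℚ ℝ A ((x : Sp (pair Z) P) : ℝ × A).2 = ((x : Sp (pair Z) P) : ℝ × A) :=
          Prod.ext hx.symm rfl
        exact e ▸ x.1.2)
    have hg : Function.Bijective g := by
      constructor
      · intro x y hxy
        have hx : ((x : Sp (pair Z) P) : ℝ × A).1 = 0 := x.2
        have hy : ((y : Sp (pair Z) P) : ℝ × A).1 = 0 := y.2
        have h2 : ((x : Sp (pair Z) P) : ℝ × A).2 = ((y : Sp (pair Z) P) : ℝ × A).2 :=
          congrArg (fun t : Viol Z P => (t : A)) hxy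
        apply Subtype.ext
        apply Subtype.ext
        exact Prod.ext (hx.trans hy.symm) h2
      · intro a
        exact ⟨⟨⟨((0 : ℝ), (a : A)), a.2⟩, rfl⟩, rfl⟩
    exact (LinearEquiv.ofBijective g hg).rank_eq
  rw [e1, e2] at h1
  exact h1.symm

/-- the algebraic form: every polynomial relation of the real values holds for `Z` -/
def Algebraic (Z : List ℕ → A) : Prop :=
  ∀ (m : ℕ) (s : Fin m → List ℕ), (∀ i, Adm (s i)) → ∀ f : MvPolynomial (Fin m) ℚ,
    MvPolynomial.aeval (fun i => val (s i)) f = 0 → MvPolynomial.aeval (fun i => Z (s i)) f = 0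

theorem one_mem_Sp {Z : List ℕ → A} (hZ : HasStuffle Z) : (1 : A) ∈ Sp Z Set.univ := by
  rw [← hZ.1]
  exact Submodule.subset_span ⟨[], ⟨⟨by simp, by simp⟩, trivial⟩, rfl⟩

theorem aeval_mem {Z : List ℕ → A} (hZ : HasStuffle Z) {m : ℕ} (s : Fin m → List ℕ) (hs : ∀ i, Adm (s i))
    (f : MvPolynomial (Fin m) ℚ) : MvPolynomial.aeval (fun i => Z (s i)) f ∈ Sp Z Set.univ := by
  have hmul : ∀ x y : A, x ∈ Sp Z Set.univ → y ∈ Sp Z Set.univ → x * y ∈ Sp Z Set.univ := by
    intro x y hx hy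
    exact Sp_mono Z (Set.subset_univ _) (Sp_mul hZ hx hy)
  induction f using MvPolynomial.induction_on with
  | C a =>
    rw [MvPolynomial.aeval_C, Algebra.algebraMap_eq_smul_one]
    exact Submodule.smul_mem _ _ (one_mem_Sp hZ)
  | add p q hp hq =>
    rw [map_add]
    exact Submodule.add_mem _ hp hq
  | mul_X p i hp =>
    rw [map_mul, MvPolynomial.aeval_X]
    exact hmul _ _ hp (Submodule.subset_span ⟨s i, ⟨hs i, trivial⟩, rfl⟩)

theorem algebraic_iff {Z : List ℕ → A} (hZ : HasStuffle Z) : Algebraic Z ↔ Transfer Z Set.univ := by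
  constructor
  · intro h c hc h1
    classical
    -- the linear relation as a polynomial relation
    let e := c.support.equivFin
    have key : ∀ {B : Type} [CommRing B] [Algebra ℚ B] (Y : List ℕ → B),
        MvPolynomial.aeval (fun i => Y (e.symm i : List ℕ))
          (∑ i, MvPolynomial.C (c (e.symm i : List ℕ)) * MvPolynomial.X i) = c.sum (fun s q => q • Y s) := by
      intro B _ _ Y
      have h3 : ∑ i, c (e.symm i : List ℕ) • Y (e.symm i : List ℕ) = ∑ a ∈ c.support, c a • Y a := by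
        rw [← Finset.sum_coe_sort c.support (fun a => c a • Y a)]
        exact e.symm.sum_comp (fun a : c.support => c (a : List ℕ) • Y (a : List ℕ))
      rw [map_sum, Finsupp.sum, ← h3]
      refine Finset.sum_congr rfl fun i _ => ?_
      rw [map_mul, MvPolynomial.aeval_C, MvPolynomial.aeval_X, Algebra.smul_def]
    have h2 := h _ (fun i => (e.symm i : List ℕ)) (fun i => (hc _ (e.symm i).2).1)
      (∑ i, MvPolynomial.C (c (e.symm i : List ℕ)) * MvPolynomial.X i) (by rw [key, h1])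
    rw [key] at h2
    exact h2
  · intro h m s hs f hf
    have h1 := aeval_mem (pair_stuffle hZ) s hs f
    have e : MvPolynomial.aeval (fun i => pair Z (s i)) f =
        (MvPolynomial.aeval (fun i => val (s i)) f, MvPolynomial.aeval (fun i => Z (s i)) f) := by
      apply Prod.ext
      · exact MvPolynomial.comp_aeval_apply (fun i => pair Z (s i)) (AlgHom.fst ℚ ℝ A) f
      · exact MvPolynomial.comp_aeval_apply (fun i => pair Z (s i)) (AlgHom.snd ℚ ℝ A) f
    rw [e, hf] at h1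
    have h2 : MvPolynomial.aeval (fun i => Z (s i)) f ∈ Viol Z Set.univ := h1
    rw [(transfer_iff Z _).1 h] at h2
    exact (Submodule.mem_bot ℚ).1 h2

/-- transfer in a set of weights goes down -/
theorem Transfer.down [IsDomain A] {Z : List ℕ → A} (hZ : HasStuffle Z) {P Q : Set ℕ}
    (h : Transfer Z (P + Q)) (hQ : Sp Z Q ≠ ⊥) : Transfer Z P := by
  by_contra hne
  have h1 := rank_le hZ hne Q
  rw [(transfer_iff Z _).1 h, rank_bot] at h1
  have h2 : Module.rank ℚ (Sp Z Q) = 0 := le_antisymm h1 (zero_le)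
  exact hQ (Submodule.rank_eq_zero.1 h2)

theorem homogeneous [IsDomain A] {Z : List ℕ → A} (hZ : HasStuffle Z) (hS : ∀ᶠ n in atTop, Sp Z {n} ≠ ⊥) :
    (∀ n, Transfer Z {n}) ↔ ∃ᶠ n in atTop, Transfer Z {n} := by
  constructor
  · intro h
    exact Frequently.of_forall h
  · intro h n
    obtain ⟨N, hN⟩ := eventually_atTop.1 hS
    obtain ⟨k, hk, h1⟩ := (frequently_atTop.1 h) (n + N)
    have e : ({k} : Set ℕ) = {n} + {k - n} := by
      rw [Set.singleton_add_singleton, Nat.add_sub_cancel' (by omega)]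
    rw [e] at h1
    exact h1.down hZ (hN _ (by omega))

theorem iff_windows [IsDomain A] {Z : List ℕ → A} (hZ : HasStuffle Z) (hS : ∀ᶠ n in atTop, Sp Z {n} ≠ ⊥) :
    Algebraic Z ↔ ∀ w : ℕ, ∃ᶠ n in atTop, Transfer Z (Set.Icc n (n + w)) := by
  rw [algebraic_iff hZ]
  constructor
  · intro h w
    exact Frequently.of_forall fun n c hc => h c fun s hs => ⟨(hc s hs).1, trivial⟩
  · intro h c hc h1
    obtain ⟨N, hN⟩ := eventually_atTop.1 hS
    obtain ⟨k, hk, h2⟩ := (frequently_atTop.1 (h (c.support.sup List.sum))) N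
    have h3 : Transfer Z (Set.Iic (c.support.sup List.sum)) := by
      refine Transfer.down hZ (Q := {k}) ?_ (hN k hk)
      intro e he
      refine h2 e fun s hs => ⟨(he s hs).1, ?_⟩
      obtain ⟨a, ha, b, hb, hab⟩ := (he s hs).2
      have ha' : a ≤ c.support.sup List.sum := ha
      have hb' : b = k := hb
      have hab' : a + b = s.sum := hab
      rw [← hab', hb']
      exact ⟨by omega, by omega⟩
    exact h3 c (fun s hs => ⟨(hc s hs).1, Finset.le_sup (f := List.sum) hs⟩) h1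

end Pool.Agent.Q127.SF

namespace Pool.Agent.Q127.SF

open Pool.Agent.H447R2.MZ

variable {A : Type} [CommRing A] [Algebra ℚ A]

theorem ne_bot_of {Z : List ℕ → A} {n : ℕ} (h : ∃ s, Adm s ∧ s.sum = n ∧ Z s ≠ 0) : Sp Z {n} ≠ ⊥ := by
  obtain ⟨s, hs, hn, h0⟩ := h
  intro hb
  have h1 : Z s ∈ Sp Z {n} := Submodule.subset_span ⟨s, ⟨hs, hn⟩, rfl⟩
  rw [hb, Submodule.mem_bot] at h1
  exact h0 h1

theorem ne_bot_add [IsDomain A] {Z : List ℕ → A} (hZ : HasStuffle Z) {m n : ℕ} (hm : Sp Z {m} ≠ ⊥)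
    (hn : Sp Z {n} ≠ ⊥) : Sp Z {m + n} ≠ ⊥ := by
  rw [Submodule.ne_bot_iff] at hm hn
  obtain ⟨x, hx, hx0⟩ := hm
  obtain ⟨y, hy, hy0⟩ := hn
  have h1 := Sp_mul hZ hx hy
  rw [Set.singleton_add_singleton] at h1
  intro hb
  rw [hb, Submodule.mem_bot] at h1
  exact mul_ne_zero hx0 hy0 h1

/-- the weights with a nonzero value -/
def supp [IsDomain A] (Z : List ℕ → A) (hZ : HasStuffle Z) : AddSubmonoid ℕ where
  carrier := {n | Sp Z {n} ≠ ⊥}
  zero_mem' := ne_bot_of ⟨[], ⟨by simp, by simp⟩, by simp, by rw [hZ.1]; exact one_ne_zero⟩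
  add_mem' := fun hm hn => ne_bot_add hZ hm hn

theorem eventually_ne [IsDomain A] {Z : List ℕ → A} (hZ : HasStuffle Z)
    (h : ∃ a b, 1 < a ∧ 1 < b ∧ Nat.Coprime a b ∧ (∃ s, Adm s ∧ s.sum = a ∧ Z s ≠ 0) ∧
      ∃ s, Adm s ∧ s.sum = b ∧ Z s ≠ 0) : ∀ᶠ n in atTop, Sp Z {n} ≠ ⊥ := by
  obtain ⟨a, b, ha, hb, hab, h1, h2⟩ := h
  have h3 := frobeniusNumber_pair hab ha hb
  rw [eventually_atTop]
  refine ⟨a * b - a - b + 1, fun n hn => ?_⟩
  by_contra hne
  have h4 : n ∉ AddSubmonoid.closure ({a, b} : Set ℕ) := by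
    intro hmem
    have hle : AddSubmonoid.closure ({a, b} : Set ℕ) ≤ supp Z hZ := by
      rw [AddSubmonoid.closure_le]
      rintro x (rfl | rfl)
      · exact ne_bot_of h1
      · exact ne_bot_of h2
    exact (hle hmem) hne
  have h5 := h3.2 h4
  omega

end Pool.Agent.Q127.SF
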