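import Pool.Agent.Q263.ZO.Engine

/-!
# Words in the letters `2` and `3`: their number in each weight
-/

set_option autoImplicit false

open Module

namespace Pool.Agent.Q127.HB

open Pool.Agent.Q263.ZO (d d_rec)

/-- finite tuples of numbers `2` and `3` -/
abbrev Word := Σ r : ℕ, {n : Fin r → ℕ // ∀ i, n i = 2 ∨ n i = 3}

/-- the weight -/
def wt (w : Word) : ℕ := ∑ i, w.2.1 i

/-- the empty word -/
def emp : Word := ⟨0, ⟨fun i => i.elim0, fun i => i.elim0⟩⟩

/-- one more letter in front -/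
def cns (a : ℕ) (ha : a = 2 ∨ a = 3) (w : Word) : Word :=
  ⟨w.1 + 1, ⟨Fin.cons a w.2.1, fun i => by
    refine Fin.cases ?_ (fun i => ?_) i
    · simpa using ha
    · simpa using w.2.2 i⟩⟩

theorem wt_emp : wt emp = 0 := by simp [wt, emp]

theorem wt_cns (a : ℕ) (ha : a = 2 ∨ a = 3) (w : Word) : wt (cns a ha w) = a + wt w := by
  change ∑ i : Fin (w.1 + 1), (Fin.cons a w.2.1 : Fin (w.1 + 1) → ℕ) i = a + ∑ i, w.2.1 i
  rw [Fin.sum_univ_succ]
  simp

theorem cns_inj (a : ℕ) (ha : a = 2 ∨ a = 3) : Function.Injective (cns a ha) := by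
  rintro ⟨r, n, hn⟩ ⟨s, m, hm⟩ h
  have h1 : r = s := by
    have := congrArg Sigma.fst h
    simpa [cns] using this
  subst h1
  have h2 : (Fin.cons a n : Fin (r + 1) → ℕ) = Fin.cons a m := by
    simpa [cns] using h
  have h3 : n = m := (Fin.cons_injective2 h2).2
  subst h3
  rfl

theorem eq_emp_or (w : Word) : w = emp ∨ (∃ u, w = cns 2 (Or.inl rfl) u) ∨ ∃ u, w = cns 3 (Or.inr rfl) u := by
  obtain ⟨r, n, hn⟩ := w
  cases r with
  | zero =>
    left
    rw [emp]
    congr
    funext i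
    exact i.elim0
  | succ r =>
    right
    have e : n = Fin.cons (n 0) (fun i : Fin r => n i.succ) := (Fin.cons_self_tail n).symm
    rcases hn 0 with h | h
    · left
      refine ⟨⟨r, fun i : Fin r => n i.succ, fun i => hn i.succ⟩, ?_⟩
      unfold cns
      have e2 : n = Fin.cons 2 (fun i : Fin r => n i.succ) := by rw [← h]; exact e
      congr 2
    · right
      refine ⟨⟨r, fun i : Fin r => n i.succ, fun i => hn i.succ⟩, ?_⟩
      unfold cns
      have e2 : n = Fin.cons 3 (fun i : Fin r => n i.succ) := by rw [← h]; exact e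
      congr 2

/-- the words of weight `n` -/
def S (n : ℕ) : Set Word := {w | wt w = n}

theorem S_zero : S 0 = {emp} := by
  ext w
  rw [S, Set.mem_ofPred_eq, Set.mem_singleton_iff]
  constructor
  · intro h
    rcases eq_emp_or w with h1 | ⟨u, rfl⟩ | ⟨u, rfl⟩
    · exact h1
    · rw [wt_cns] at h; omega
    · rw [wt_cns] at h; omega
  · rintro rfl
    exact wt_emp

theorem S_one : S 1 = ∅ := by
  ext w
  rw [S, Set.mem_ofPred_eq]
  constructor
  · intro h
    rcases eq_emp_or w with rfl | ⟨u, rfl⟩ | ⟨u, rfl⟩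
    · rw [wt_emp] at h; omega
    · rw [wt_cns] at h; omega
    · rw [wt_cns] at h; omega
  · intro h
    exact h.elim

theorem S_two : S 2 = {cns 2 (Or.inl rfl) emp} := by
  ext w
  rw [S, Set.mem_ofPred_eq, Set.mem_singleton_iff]
  constructor
  · intro h
    rcases eq_emp_or w with rfl | ⟨u, rfl⟩ | ⟨u, rfl⟩
    · rw [wt_emp] at h; omega
    · rw [wt_cns] at h
      have hu : u ∈ S 0 := by
        rw [S, Set.mem_ofPred_eq]; omega
      rw [S_zero, Set.mem_singleton_iff] at hu
      rw [hu]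
    · rw [wt_cns] at h; omega
  · rintro rfl
    rw [wt_cns, wt_emp]

theorem S_succ (n : ℕ) : S (n + 3) = cns 2 (Or.inl rfl) '' S (n + 1) ∪ cns 3 (Or.inr rfl) '' S n := by
  ext w
  rw [S, Set.mem_ofPred_eq]
  constructor
  · intro h
    rcases eq_emp_or w with rfl | ⟨u, rfl⟩ | ⟨u, rfl⟩
    · rw [wt_emp] at h; omega
    · rw [wt_cns] at h
      left
      refine ⟨u, ?_, rfl⟩
      rw [S, Set.mem_ofPred_eq]; omega
    · rw [wt_cns] at h
      right
      refine ⟨u, ?_, rfl⟩
      rw [S, Set.mem_ofPred_eq]; omega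
  · rintro (⟨u, hu, rfl⟩ | ⟨u, hu, rfl⟩)
    · rw [wt_cns]
      rw [S, Set.mem_ofPred_eq] at hu
      omega
    · rw [wt_cns]
      rw [S, Set.mem_ofPred_eq] at hu
      omega

theorem disj (A B : Set Word) : Disjoint (cns 2 (Or.inl rfl) '' A) (cns 3 (Or.inr rfl) '' B) := by
  rw [Set.disjoint_left]
  rintro w ⟨u, _, rfl⟩ ⟨v, _, h⟩
  have h1 : v.1 = u.1 := by
    have := congrArg Sigma.fst h
    simpa [cns] using this
  obtain ⟨r, n, hn⟩ := v
  obtain ⟨s, m, hm⟩ := u
  simp only at h1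
  subst h1
  have h2 : (Fin.cons 3 n : Fin (r + 1) → ℕ) = Fin.cons 2 m := by
    simpa [cns] using h
  have h3 := congrFun h2 0
  simp at h3

theorem finite_ncard (n : ℕ) : (S n).Finite ∧ (S n).ncard = d n := by
  induction n using Nat.strong_induction_on with
  | _ n ih =>
    match n with
    | 0 => rw [S_zero]; simp [d]
    | 1 => rw [S_one]; simp [d]
    | 2 => rw [S_two]; simp [d]
    | (n + 3) =>
      obtain ⟨f1, c1⟩ := ih (n + 1) (by omega)
      obtain ⟨f2, c2⟩ := ih n (by omega)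
      rw [S_succ]
      refine ⟨(f1.image _).union (f2.image _), ?_⟩
      rw [Set.ncard_union_eq (disj _ _) (f1.image _) (f2.image _),
        Set.ncard_image_of_injective _ (cns_inj _ _), Set.ncard_image_of_injective _ (cns_inj _ _), c1, c2, d_rec]

end Pool.Agent.Q127.HB
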